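import Pool.Agent.H47.ZF.BDT
import Pool.Agent.H20.LX.T2

/-!
Page lx (MP_52e316_nt), row BDX: large Dirichlet polynomials with coefficients in mean square, twisted, in a window.
-/

set_option autoImplicit false

namespace Pool.Agent.H47.LX

open MeasureTheory Pool.Agent.H27.ZF Pool.Agent.H47.ZF Pool.Agent.H47.TZF
open Pool.Agent.H27.L1.H34.GM Pool.Agent.H27.L1.H34.GZ Pool.Agent.H27.L1.H34.GU
  Pool.Agent.H27.L1.H34.GA
open Pool.Agent.H20.LX (T_LXF)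

/-- the coefficients have mean square at most one on the block -/
def Nb (b : ℕ → ℂ) (r : ℕ) : Prop := ∑ n ∈ Bk r, ‖b n‖ ^ 2 ≤ (2 : ℝ) ^ r

/-- the large sieve over a block, mean square coefficients -/
def T_LSB : Prop := ∀ (m : ℕ) (B ε : ℝ), 1 ≤ m → 1 ≤ B → 0 < ε → ∃ C : ℝ, 0 < C ∧
  ∀ (N : ℕ) [NeZero N] (T : ℕ → Finset (ZM m)) (D : Set (V m)), SysZ m N T D →
  ∀ P : ℝ, 1 ≤ P → ∀ (S : Type) [Fintype S] [DecidableEq S] (F : S → Mat m → VN m N → ℂ)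
    (lam : S → ℕ → ℂ) (W : S → ℝ), Fam T D P F lam W →
  ∀ r : ℕ, (2 : ℝ) ^ r ≤ N * P ^ m → ∀ b : ℕ → ℂ, Nb b r →
  ∀ σ τ : ℝ, 0 ≤ σ → σ ≤ B →
    ∑ i, ENNReal.ofReal (W i) * ∫⁻ t in Set.Icc (-P) P,
      ENNReal.ofReal (‖DB (lam i) b r (σ + (t + τ) * Complex.I)‖ ^ 2) ≤
    ENNReal.ofReal (C * ((N : ℝ) * P) ^ ε * ((N : ℝ) ^ m * P ^ (m ^ 2)) *
      (2 : ℝ) ^ ((r : ℝ) * (1 - 2 * σ)))

theorem pf_LSB (h : T_LXF) : T_LSB := by
  intro m B ε hm hB hε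
  obtain ⟨C, hC, h1⟩ := h m (ε / (m + 1)) hm (by positivity)
  refine ⟨C * 2 ^ m * (2 : ℝ) ^ (2 * B), by positivity, ?_⟩
  intro N _ T D hS P hP S _ _ F lam W hF r hr b hb σ τ hσ hσB
  have hN : 1 ≤ N := Nat.one_le_iff_ne_zero.mpr (NeZero.ne N)
  have hN1 : (1 : ℝ) ≤ N := by exact_mod_cast hN
  have h2 := h1 N T D hS P hP S F lam W hF (2 ^ r)
    (fun n => if n ∈ Bk r then b n * (n : ℂ) ^ (-(σ : ℂ)) else 0) τ Nat.one_le_two_pow
  have hsub : Bk r ⊆ Finset.Icc 1 (2 ^ r) := by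
    intro n hn
    have h3 := Finset.mem_Ioc.mp hn
    rw [Finset.mem_Icc]
    omega
  have e1 : ∀ i (t : ℝ), ∑ n ∈ Finset.Icc 1 (2 ^ r),
      (if n ∈ Bk r then b n * (n : ℂ) ^ (-(σ : ℂ)) else 0) * lam i n *
        (n : ℂ) ^ (-(((t + τ : ℝ) : ℂ) * Complex.I)) =
      DB (lam i) b r (σ + (t + τ) * Complex.I) := by
    intro i t
    unfold DB
    rw [← Finset.sum_subset hsub (by
      intro n _ hn
      rw [if_neg hn]
      ring)]
    refine Finset.sum_congr rfl (fun n hn => ?_)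
    have h3 := Finset.mem_Ioc.mp hn
    have hn0 : (n : ℂ) ≠ 0 := by
      have : n ≠ 0 := by omega
      exact_mod_cast this
    rw [if_pos hn]
    have h4 : (n : ℂ) ^ (-(σ + (t + τ) * Complex.I)) =
        (n : ℂ) ^ (-(σ : ℂ)) * (n : ℂ) ^ (-(((t + τ : ℝ) : ℂ) * Complex.I)) := by
      rw [← Complex.cpow_add _ _ hn0]
      congr 1
      push_cast
      ring
    rw [h4]
    ring
  simp_rw [e1] at h2
  refine h2.trans (ENNReal.ofReal_le_ofReal ?_)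
  have e2 : ∑ n ∈ Finset.Icc 1 (2 ^ r),
      ‖(if n ∈ Bk r then b n * (n : ℂ) ^ (-(σ : ℂ)) else 0)‖ ^ 2 ≤
      (2 : ℝ) ^ (2 * B) * (2 : ℝ) ^ ((r : ℝ) * (1 - 2 * σ)) := by
    rw [← Finset.sum_subset hsub (by
      intro n _ hn
      rw [if_neg hn]
      simp)]
    have e3 : ∀ n ∈ Bk r, ‖(if n ∈ Bk r then b n * (n : ℂ) ^ (-(σ : ℂ)) else 0)‖ ^ 2 ≤
        ‖b n‖ ^ 2 * (2 : ℝ) ^ (((r : ℝ) - 1) * (-(2 * σ))) := by
      intro n hn
      have h3 := Finset.mem_Ioc.mp hn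
      have hn1 : 0 < n := by omega
      have h4 : (2 : ℝ) ^ ((r : ℝ) - 1) ≤ n := by
        have h5 : 2 ^ r ≤ n * 2 := ((Nat.div_lt_iff_lt_mul (by norm_num)).mp h3.1).le
        have h6 : (2 : ℝ) ^ r ≤ n * 2 := by exact_mod_cast h5
        rw [Real.rpow_sub (by norm_num), Real.rpow_one, Real.rpow_natCast]
        linarith
      rw [if_pos hn, norm_mul, mul_pow, Complex.norm_natCast_cpow_of_pos hn1]
      apply mul_le_mul_of_nonneg_left _ (by positivity)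
      have h7 : (-(σ : ℂ)).re = -σ := by simp
      have hn0 : (0 : ℝ) < n := by exact_mod_cast hn1
      have h8 : ((n : ℝ) ^ (-σ)) ^ 2 = (n : ℝ) ^ (-(2 * σ)) := by
        rw [← Real.rpow_natCast, ← Real.rpow_mul hn0.le]
        congr 1
        push_cast
        ring
      rw [h7, h8, Real.rpow_mul (by norm_num)]
      exact Real.rpow_le_rpow_of_nonpos (by positivity) h4 (by linarith)
    refine (Finset.sum_le_sum e3).trans ?_
    rw [← Finset.sum_mul]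
    calc (∑ n ∈ Bk r, ‖b n‖ ^ 2) * (2 : ℝ) ^ (((r : ℝ) - 1) * (-(2 * σ)))
        ≤ (2 : ℝ) ^ r * (2 : ℝ) ^ (((r : ℝ) - 1) * (-(2 * σ))) :=
          mul_le_mul_of_nonneg_right hb (by positivity)
      _ = (2 : ℝ) ^ ((r : ℝ) + ((r : ℝ) - 1) * (-(2 * σ))) := by
          rw [Real.rpow_add (by norm_num), Real.rpow_natCast]
      _ ≤ (2 : ℝ) ^ (2 * B + (r : ℝ) * (1 - 2 * σ)) := by
          apply Real.rpow_le_rpow_of_exponent_le (by norm_num)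
          nlinarith
      _ = _ := by rw [Real.rpow_add (by norm_num)]
  have hPm : (1 : ℝ) ≤ P ^ m := one_le_pow₀ hP
  have hQ0 : (0 : ℝ) < N * P ^ m := by positivity
  have e4 : (1 + ((2 ^ r : ℕ) : ℝ) / (N * P ^ m)) ^ m ≤ 2 ^ m := by
    apply pow_le_pow_left₀ (by positivity)
    have : ((2 ^ r : ℕ) : ℝ) / (N * P ^ m) ≤ 1 := by
      rw [div_le_one hQ0]
      exact_mod_cast hr
    linarith
  have hNP1 : (1 : ℝ) ≤ (N : ℝ) * P := by nlinarith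
  have e5 : ((N : ℝ) * P * ((2 ^ r : ℕ) : ℝ)) ^ (ε / (m + 1)) ≤ ((N : ℝ) * P) ^ ε := by
    have h3 : (N : ℝ) * P * ((2 ^ r : ℕ) : ℝ) ≤ ((N : ℝ) * P) ^ ((m : ℝ) + 1) := by
      have h4 : ((2 ^ r : ℕ) : ℝ) ≤ ((N : ℝ) * P) ^ (m : ℝ) := by
        have h5 : ((2 ^ r : ℕ) : ℝ) ≤ N * P ^ m := by exact_mod_cast hr
        refine h5.trans ?_
        rw [Real.rpow_natCast, mul_pow]
        apply mul_le_mul_of_nonneg_right _ (by positivity)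
        exact le_self_pow₀ hN1 (by omega)
      rw [Real.rpow_add (by linarith), Real.rpow_one, mul_comm (((N : ℝ) * P) ^ (m : ℝ))]
      exact mul_le_mul_of_nonneg_left h4 (by linarith)
    calc ((N : ℝ) * P * ((2 ^ r : ℕ) : ℝ)) ^ (ε / (m + 1))
        ≤ (((N : ℝ) * P) ^ ((m : ℝ) + 1)) ^ (ε / (m + 1)) :=
          Real.rpow_le_rpow (by positivity) h3 (by positivity)
      _ = ((N : ℝ) * P) ^ ε := by
          rw [← Real.rpow_mul (by linarith)]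
          congr 1
          field_simp
  calc C * ((N : ℝ) * P * ((2 ^ r : ℕ) : ℝ)) ^ (ε / (m + 1)) * ((N : ℝ) ^ m * P ^ (m ^ 2)) *
        (1 + ((2 ^ r : ℕ) : ℝ) / (N * P ^ m)) ^ m *
        ∑ n ∈ Finset.Icc 1 (2 ^ r),
          ‖(if n ∈ Bk r then b n * (n : ℂ) ^ (-(σ : ℂ)) else 0)‖ ^ 2
      ≤ C * ((N : ℝ) * P) ^ ε * ((N : ℝ) ^ m * P ^ (m ^ 2)) * 2 ^ m *
        ((2 : ℝ) ^ (2 * B) * (2 : ℝ) ^ ((r : ℝ) * (1 - 2 * σ))) := by
        gcongr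
    _ = _ := by ring

theorem bl_nb (b : ℕ → ℂ) (r : ℕ) (hb : Nb b r) : Nb (bl b r) r := by
  refine le_trans (Finset.sum_le_sum (fun n hn => ?_)) hb
  apply pow_le_pow_left₀ (norm_nonneg _)
  unfold bl
  rw [if_pos hn, norm_mul, Complex.norm_real, Real.norm_eq_abs]
  have h1 := Finset.mem_Ioc.mp hn
  have h2 : 2 ^ r < n * 2 := (Nat.div_lt_iff_lt_mul (by norm_num)).mp h1.1
  have hn : (0 : ℝ) < n := by exact_mod_cast (by omega : 0 < n)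
  have h3 : (2 : ℝ) ^ r / n ≤ 2 := by
    rw [div_le_iff₀ hn]
    have : (2 : ℝ) ^ r < n * 2 := by exact_mod_cast h2
    linarith
  have h4 : 1 ≤ (2 : ℝ) ^ r / n := by
    rw [le_div_iff₀ hn, one_mul]
    exact_mod_cast h1.2
  have h5 : 0 ≤ Real.log ((2 : ℝ) ^ r / n) := Real.log_nonneg h4
  have h6 : Real.log ((2 : ℝ) ^ r / n) ≤ 1 := by
    have h7 : Real.log ((2 : ℝ) ^ r / n) ≤ Real.log 2 := Real.log_le_log (by linarith) h3
    linarith [Real.log_two_lt_d9]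
  rw [abs_of_nonneg h5]
  exact mul_le_of_le_one_right (norm_nonneg _) h6

theorem tb_nb (b c : ℕ → ℂ) (τ : ℝ) (r : ℕ) (hb : Nb b r) (hc : ∀ n, ‖c n‖ ≤ 1) :
    Nb (tb b c τ) r := by
  refine le_trans (Finset.sum_le_sum (fun n hn => ?_)) hb
  apply pow_le_pow_left₀ (norm_nonneg _)
  have h1 := Finset.mem_Ioc.mp hn
  unfold Pool.Agent.H47.TZF.tb
  rw [if_neg (by omega), norm_mul, norm_mul, Complex.norm_natCast_cpow_of_pos (by omega)]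
  have h2 : (-(τ * Complex.I) : ℂ).re = 0 := by simp
  rw [h2, Real.rpow_zero, mul_one]
  exact mul_le_of_le_one_right (norm_nonneg _) (hc n)

open Classical in
/-- the windows with a large value of one Dirichlet polynomial -/
theorem oneX (m : ℕ) (hm : 1 ≤ m) (B ε : ℝ) (hB : 1 ≤ B) (hε : 0 < ε) (hSOB : T_SOB)
    (hLSF : T_LSB) : ∃ C : ℝ, 0 < C ∧
  ∀ (N : ℕ) [NeZero N] (T : ℕ → Finset (ZM m)) (D : Set (V m)), SysZ m N T D →
  ∀ P : ℝ, 1 ≤ P → ∀ (S : Type) [Fintype S] [DecidableEq S] (F : S → Mat m → VN m N → ℂ)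
    (lam : S → ℕ → ℂ) (W : S → ℝ), Fam T D P F lam W →
  ∀ r : ℕ, (2 : ℝ) ^ r ≤ N * P ^ m → ∀ b : ℕ → ℂ, Nb b r → ∀ A : ℝ, 0 < A →
    ∑ i, W i * (((Finset.Icc (-⌊P⌋) ⌊P⌋).filter (fun k : ℤ => ∃ s : ℂ, 1 / 2 ≤ s.re ∧ s.re ≤ B ∧
      |s.im - k| ≤ B ∧ A < ‖Gd (lam i) b r s‖)).card : ℝ) ≤
      C * ((N : ℝ) * P) ^ ε * ((N : ℝ) ^ m * P ^ (m ^ 2)) / A ^ 2 := by
  obtain ⟨C1, hC1, h1⟩ := hSOB (1 / 2) B (by linarith)
  obtain ⟨C2, hC2, h2⟩ := hLSF m B ε hm hB hε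
  have hcB : (0 : ℝ) ≤ (⌈B⌉ : ℝ) := by
    have : (0 : ℤ) ≤ ⌈B⌉ := Int.ceil_nonneg (by linarith)
    exact_mod_cast this
  have hC0 : 0 < C1 * ((2 * B + 1) * ((2 * (⌈B⌉ : ℝ) + 1) * 3)) * (B - 1 / 2) * C2 :=
    mul_pos (mul_pos (mul_pos hC1 (by positivity)) (by linarith)) hC2
  refine ⟨C1 * ((2 * B + 1) * ((2 * (⌈B⌉ : ℝ) + 1) * 3)) * (B - 1 / 2) * C2, hC0, ?_⟩
  intro N _ T D hS P hP S _ _ F lam W hF r hr b hb A hA
  have hW := hF.nn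
  have hN : (0 : ℝ) ≤ N := Nat.cast_nonneg N
  set M : ℝ := C2 * ((N : ℝ) * P) ^ ε * ((N : ℝ) ^ m * P ^ (m ^ 2)) with hM
  have hM0 : 0 ≤ M := by positivity
  -- mean squares of one polynomial
  have hG : ∀ b' : ℕ → ℂ, Nb b' r → ∀ σ τ : ℝ, 0 ≤ σ → σ ≤ B →
      ∑ i, ENNReal.ofReal (W i) * ∫⁻ t in Set.Icc (-P) P,
        ENNReal.ofReal (‖Gd (lam i) b' r (σ + ((t + τ : ℝ) : ℂ) * Complex.I)‖ ^ 2) ≤
          ENNReal.ofReal M := by
    intro b' hb' σ τ hσ hσB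
    have h3 := h2 N T D hS P hP S F lam W hF r hr b' hb' σ τ hσ hσB
    have e1 : ∀ i, ENNReal.ofReal (W i) * ∫⁻ t in Set.Icc (-P) P,
        ENNReal.ofReal (‖Gd (lam i) b' r (σ + ((t + τ : ℝ) : ℂ) * Complex.I)‖ ^ 2) =
        ENNReal.ofReal ((2 : ℝ) ^ ((r : ℝ) * (2 * σ - 1))) * (ENNReal.ofReal (W i) *
          ∫⁻ t in Set.Icc (-P) P,
            ENNReal.ofReal (‖DB (lam i) b' r (σ + (t + τ) * Complex.I)‖ ^ 2)) := by
      intro i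
      simp_rw [Gd_sq]
      rw [lintegral_const_mul' _ _ ENNReal.ofReal_ne_top]
      simp only [Complex.ofReal_add]
      ring
    rw [Finset.sum_congr rfl (fun i _ => e1 i), ← Finset.mul_sum]
    refine (mul_le_mul' le_rfl h3).trans ?_
    rw [← ENNReal.ofReal_mul (by positivity)]
    apply ENNReal.ofReal_le_ofReal
    have e2 : (2 : ℝ) ^ ((r : ℝ) * (2 * σ - 1)) * (2 : ℝ) ^ ((r : ℝ) * (1 - 2 * σ)) = 1 := by
      rw [← Real.rpow_add (by norm_num)]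
      have : (r : ℝ) * (2 * σ - 1) + (r : ℝ) * (1 - 2 * σ) = 0 := by ring
      rw [this, Real.rpow_zero]
    calc (2 : ℝ) ^ ((r : ℝ) * (2 * σ - 1)) * (C2 * ((N : ℝ) * P) ^ ε *
          ((N : ℝ) ^ m * P ^ (m ^ 2)) * (2 : ℝ) ^ ((r : ℝ) * (1 - 2 * σ)))
        = ((2 : ℝ) ^ ((r : ℝ) * (2 * σ - 1)) * (2 : ℝ) ^ ((r : ℝ) * (1 - 2 * σ))) * M := by
          rw [hM]; ring
      _ ≤ M := by rw [e2, one_mul]
  -- the same for the sum of the three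
  have hH : ∀ σ τ : ℝ, 0 ≤ σ → σ ≤ B →
      ∑ i, ENNReal.ofReal (W i) * ∫⁻ t in Set.Icc (-P) P, Hf (lam i) b r σ (t + τ) ≤
        ENNReal.ofReal (3 * M) := by
    intro σ τ hσ hσB
    have e1 : ∀ i, ENNReal.ofReal (W i) * ∫⁻ t in Set.Icc (-P) P, Hf (lam i) b r σ (t + τ) =
        ENNReal.ofReal (W i) * (∫⁻ t in Set.Icc (-P) P,
          ENNReal.ofReal (‖Gd (lam i) b r (σ + ((t + τ : ℝ) : ℂ) * Complex.I)‖ ^ 2)) +
        ENNReal.ofReal (W i) * (∫⁻ t in Set.Icc (-P) P,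
          ENNReal.ofReal (‖Gd (lam i) (bl b r) r (σ + ((t + τ : ℝ) : ℂ) * Complex.I)‖ ^ 2)) +
        ENNReal.ofReal (W i) * (∫⁻ t in Set.Icc (-P) P,
          ENNReal.ofReal (‖Gd (lam i) (bl (bl b r) r) r (σ + ((t + τ : ℝ) : ℂ) * Complex.I)‖ ^ 2)) := by
      intro i
      have hm1 : ∀ b' : ℕ → ℂ, Measurable (fun t : ℝ =>
          ENNReal.ofReal (‖Gd (lam i) b' r (σ + ((t + τ : ℝ) : ℂ) * Complex.I)‖ ^ 2)) := fun b' =>
        (Gd_meas (lam i) b' r σ).comp (measurable_id.add_const τ)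
      unfold Hf
      rw [lintegral_add_right _ (hm1 (bl (bl b r) r)), lintegral_add_right _ (hm1 (bl b r)),
        mul_add, mul_add]
    rw [Finset.sum_congr rfl (fun i _ => e1 i), Finset.sum_add_distrib, Finset.sum_add_distrib]
    have e3 : ENNReal.ofReal (3 * M) = ENNReal.ofReal M + ENNReal.ofReal M + ENNReal.ofReal M := by
      rw [← ENNReal.ofReal_add hM0 hM0, ← ENNReal.ofReal_add (by positivity) hM0]
      congr 1
      ring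
    rw [e3]
    exact add_le_add (add_le_add (hG b hb σ τ hσ hσB) (hG _ (bl_nb b r hb) σ τ hσ hσB))
      (hG _ (bl_nb _ r (bl_nb b r hb)) σ τ hσ hσB)
  -- one form
  have hone : ∀ i, ENNReal.ofReal (A ^ 2) * (((Finset.Icc (-⌊P⌋) ⌊P⌋).filter (fun k : ℤ =>
      ∃ s : ℂ, 1 / 2 ≤ s.re ∧ s.re ≤ B ∧ |s.im - k| ≤ B ∧ A < ‖Gd (lam i) b r s‖)).card : ENNReal) ≤
      ∑ k ∈ Finset.Icc (-⌊P⌋) ⌊P⌋, ENNReal.ofReal C1 * ∫⁻ σ in Set.Icc (1 / 2) B,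
        ∫⁻ t in Set.Icc (-B) B, Hf (lam i) b r σ (t + (k : ℝ)) := by
    intro i
    rw [mul_comm, ← nsmul_eq_mul, ← Finset.sum_const]
    refine (Finset.sum_le_sum (fun k hk => ?_)).trans
      (Finset.sum_le_sum_of_subset (Finset.filter_subset _ _))
    obtain ⟨s, hs1, hs2, hs3, hs4⟩ := (Finset.mem_filter.mp hk).2
    have h3 := h1 (Gd (lam i) b r) B (k : ℝ) (Gd_diff _ _ _) hB s hs1 hs2 hs3
    rw [Gd_deriv, Gd_deriv] at h3
    refine (ENNReal.ofReal_le_ofReal (pow_le_pow_left₀ (by linarith) hs4.le 2)).trans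
      (h3.trans (le_of_eq ?_))
    unfold Hf
    simp only [Complex.ofReal_add]
  -- the sum over the family
  have hall : ∑ i, ENNReal.ofReal (W i) * (ENNReal.ofReal (A ^ 2) *
      (((Finset.Icc (-⌊P⌋) ⌊P⌋).filter (fun k : ℤ =>
      ∃ s : ℂ, 1 / 2 ≤ s.re ∧ s.re ≤ B ∧ |s.im - k| ≤ B ∧ A < ‖Gd (lam i) b r s‖)).card : ENNReal)) ≤
      ENNReal.ofReal (C1 * ((2 * B + 1) * ((2 * (⌈B⌉ : ℝ) + 1) * 3)) * (B - 1 / 2) * M) := by
    calc ∑ i, ENNReal.ofReal (W i) * (ENNReal.ofReal (A ^ 2) *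
      (((Finset.Icc (-⌊P⌋) ⌊P⌋).filter (fun k : ℤ =>
      ∃ s : ℂ, 1 / 2 ≤ s.re ∧ s.re ≤ B ∧ |s.im - k| ≤ B ∧ A < ‖Gd (lam i) b r s‖)).card : ENNReal))
        ≤ ∑ i, ENNReal.ofReal (W i) * ∑ k ∈ Finset.Icc (-⌊P⌋) ⌊P⌋, ENNReal.ofReal C1 *
            ∫⁻ σ in Set.Icc (1 / 2) B, ∫⁻ t in Set.Icc (-B) B, Hf (lam i) b r σ (t + (k : ℝ)) :=
          Finset.sum_le_sum (fun i _ => mul_le_mul' le_rfl (hone i))
      _ = ENNReal.ofReal C1 * ∑ i, ∑ k ∈ Finset.Icc (-⌊P⌋) ⌊P⌋, ENNReal.ofReal (W i) *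
            ∫⁻ σ in Set.Icc (1 / 2) B, ∫⁻ t in Set.Icc (-B) B, Hf (lam i) b r σ (t + (k : ℝ)) := by
          simp_rw [Finset.mul_sum]
          exact Finset.sum_congr rfl (fun i _ => Finset.sum_congr rfl (fun k _ => by ring))
      _ ≤ ENNReal.ofReal C1 * ∑ i, ∑ k ∈ Finset.Icc (-⌊P⌋) ⌊P⌋,
            ∫⁻ σ in Set.Icc (1 / 2) B, ENNReal.ofReal (W i) *
              ∫⁻ t in Set.Icc (-B) B, Hf (lam i) b r σ (t + (k : ℝ)) :=
          mul_le_mul' le_rfl (Finset.sum_le_sum (fun i _ => Finset.sum_le_sum (fun k _ =>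
            lintegral_const_mul_le _ _)))
      _ ≤ ENNReal.ofReal C1 * ∑ i, ∫⁻ σ in Set.Icc (1 / 2) B, ∑ k ∈ Finset.Icc (-⌊P⌋) ⌊P⌋,
              ENNReal.ofReal (W i) *
              ∫⁻ t in Set.Icc (-B) B, Hf (lam i) b r σ (t + (k : ℝ)) :=
          mul_le_mul' le_rfl (Finset.sum_le_sum (fun i _ => sum_lint_le _ _ _))
      _ ≤ ENNReal.ofReal C1 * ∫⁻ σ in Set.Icc (1 / 2) B, ∑ i, ∑ k ∈ Finset.Icc (-⌊P⌋) ⌊P⌋,
              ENNReal.ofReal (W i) *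
              ∫⁻ t in Set.Icc (-B) B, Hf (lam i) b r σ (t + (k : ℝ)) :=
          mul_le_mul' le_rfl (sum_lint_le _ _ _)
      _ ≤ ENNReal.ofReal C1 * ∫⁻ σ in Set.Icc (1 / 2) B,
            ENNReal.ofReal ((2 * B + 1) * ((2 * (⌈B⌉ : ℝ) + 1) * (3 * M))) := by
          refine mul_le_mul' le_rfl (setLIntegral_mono' measurableSet_Icc (fun σ hσ => ?_))
          calc ∑ i, ∑ k ∈ Finset.Icc (-⌊P⌋) ⌊P⌋, ENNReal.ofReal (W i) *
              ∫⁻ t in Set.Icc (-B) B, Hf (lam i) b r σ (t + (k : ℝ))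
              ≤ ∑ i, ENNReal.ofReal (W i) * (ENNReal.ofReal (2 * B + 1) *
                  ∑ τ ∈ Finset.Icc (-⌈B⌉) ⌈B⌉,
                    ∫⁻ t in Set.Icc (-P) P, Hf (lam i) b r σ (t + (τ : ℝ))) := by
                refine Finset.sum_le_sum (fun i _ => ?_)
                rw [← Finset.mul_sum]
                exact mul_le_mul' le_rfl (cover B P hB hP _ (Hf_meas _ _ _ _))
            _ = ENNReal.ofReal (2 * B + 1) * ∑ τ ∈ Finset.Icc (-⌈B⌉) ⌈B⌉, ∑ i,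
                  ENNReal.ofReal (W i) *
                    ∫⁻ t in Set.Icc (-P) P, Hf (lam i) b r σ (t + (τ : ℝ)) := by
                rw [Finset.sum_comm]
                simp_rw [Finset.mul_sum]
                exact Finset.sum_congr rfl (fun i _ => Finset.sum_congr rfl (fun k _ => by ring))
            _ ≤ ENNReal.ofReal (2 * B + 1) * ∑ τ ∈ Finset.Icc (-⌈B⌉) ⌈B⌉,
                  ENNReal.ofReal (3 * M) :=
                mul_le_mul' le_rfl (Finset.sum_le_sum (fun τ _ =>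
                  hH σ τ (by linarith [hσ.1]) hσ.2))
            _ = ENNReal.ofReal ((2 * B + 1) * ((2 * (⌈B⌉ : ℝ) + 1) * (3 * M))) := by
                rw [Finset.sum_const, nsmul_eq_mul, Int.card_Icc, ← ENNReal.ofReal_natCast,
                  ← ENNReal.ofReal_mul (by positivity), ← ENNReal.ofReal_mul (by linarith)]
                congr 3
                have h5 : (0 : ℤ) ≤ ⌈B⌉ + 1 - -⌈B⌉ := by
                  have : (0 : ℤ) ≤ ⌈B⌉ := Int.ceil_nonneg (by linarith)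
                  omega
                have h6 : (((⌈B⌉ + 1 - -⌈B⌉).toNat : ℕ) : ℝ) = ((⌈B⌉ + 1 - -⌈B⌉ : ℤ) : ℝ) := by
                  exact_mod_cast Int.toNat_of_nonneg h5
                rw [h6]
                push_cast
                ring
      _ = _ := by
          rw [setLIntegral_const, Real.volume_Icc, ← ENNReal.ofReal_mul (by positivity),
            ← ENNReal.ofReal_mul (by linarith)]
          congr 1
          ring
  -- back to the reals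
  have e5 : ∑ i, ENNReal.ofReal (W i) * (ENNReal.ofReal (A ^ 2) *
      (((Finset.Icc (-⌊P⌋) ⌊P⌋).filter (fun k : ℤ =>
      ∃ s : ℂ, 1 / 2 ≤ s.re ∧ s.re ≤ B ∧ |s.im - k| ≤ B ∧ A < ‖Gd (lam i) b r s‖)).card : ENNReal)) =
      ENNReal.ofReal (A ^ 2 * ∑ i, W i * (((Finset.Icc (-⌊P⌋) ⌊P⌋).filter (fun k : ℤ =>
        ∃ s : ℂ, 1 / 2 ≤ s.re ∧ s.re ≤ B ∧ |s.im - k| ≤ B ∧ A < ‖Gd (lam i) b r s‖)).card : ℝ)) := by
    rw [Finset.mul_sum, ENNReal.ofReal_sum_of_nonneg (fun i _ => by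
      have := hW i
      positivity)]
    refine Finset.sum_congr rfl (fun i _ => ?_)
    rw [← ENNReal.ofReal_natCast, ← ENNReal.ofReal_mul (by positivity),
      ← ENNReal.ofReal_mul (hW i)]
    congr 1
    ring
  rw [e5, ENNReal.ofReal_le_ofReal_iff (by
    have : 0 ≤ B - 1 / 2 := by linarith
    positivity)] at hall
  rw [le_div_iff₀ (by positivity)]
  calc (∑ i, W i * (((Finset.Icc (-⌊P⌋) ⌊P⌋).filter (fun k : ℤ =>
        ∃ s : ℂ, 1 / 2 ≤ s.re ∧ s.re ≤ B ∧ |s.im - k| ≤ B ∧ A < ‖Gd (lam i) b r s‖)).card : ℝ)) * A ^ 2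
      ≤ C1 * ((2 * B + 1) * ((2 * (⌈B⌉ : ℝ) + 1) * 3)) * (B - 1 / 2) * M := by
        rw [mul_comm]
        exact hall
    _ = _ := by
        rw [hM]
        ring

open Classical in
/-- the windows with a large value of a polynomial with twisted coefficients, any centre -/
theorem oneTX (m : ℕ) (hm : 1 ≤ m) (B ε : ℝ) (hB : 1 ≤ B) (hε : 0 < ε) (hSOB : T_SOB)
    (hLSF : T_LSB) : ∃ C : ℝ, 0 < C ∧
  ∀ (N : ℕ) [NeZero N] (T : ℕ → Finset (ZM m)) (D : Set (V m)), SysZ m N T D →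
  ∀ H : ℝ, 1 ≤ H → ∀ (S : Type) [Fintype S] [DecidableEq S] (F : S → Mat m → VN m N → ℂ)
    (lam : S → ℕ → ℂ) (W : S → ℝ), Fam T D H F lam W →
  ∀ (c : ℕ → ℂ) (lamG : S → ℕ → ℂ), (∀ n, ‖c n‖ ≤ 1) → (∀ i n, 1 ≤ n → lamG i n = c n * lam i n) →
  ∀ r : ℕ, (2 : ℝ) ^ r ≤ N * H ^ m → ∀ b : ℕ → ℂ, Nb b r → ∀ t0 A : ℝ, 0 < A →
    ∑ i, W i * (((Wi t0 H).filter (fun k : ℤ => ∃ s : ℂ, 1 / 2 ≤ s.re ∧ s.re ≤ B ∧
      |s.im - k| ≤ B ∧ A < ‖Gd (lamG i) b r s‖)).card : ℝ) ≤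
      C * ((N : ℝ) * H) ^ ε * ((N : ℝ) ^ m * H ^ (m ^ 2)) / A ^ 2 := by
  obtain ⟨C, hC, h1⟩ := oneX m hm B ε hB hε hSOB hLSF
  refine ⟨C * (2 ^ ε * 2 ^ (m ^ 2)), by positivity, ?_⟩
  intro N _ T D hS H hH S _ _ F lam W hF c lamG hc hl r hr b hb t0 A hA
  have hN : 1 ≤ N := Nat.one_le_iff_ne_zero.mpr (NeZero.ne N)
  have hN1 : (1 : ℝ) ≤ N := by exact_mod_cast hN
  have hlip : ∀ {Q Q' : ℝ} {f : Mat m → VN m N → ℂ}, Lip D f Q → 0 ≤ Q → Q ≤ Q' → Lip D f Q' := by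
    intro Q Q' f h h0 hQ w hw
    have h1 : 0 ≤ sz (w - 1) := norm_nonneg _
    exact (h w hw).trans (pow_le_pow_left₀ (by positivity) (mul_le_mul_of_nonneg_right hQ h1) 2)
  have hF' : Fam T D (H + 1) F lam W :=
    ⟨fun i => ⟨(hF.cus i).1, hlip (hF.cus i).2 (by linarith) (by linarith)⟩, hF.orth, hF.nn, hF.wt⟩
  have hr' : (2 : ℝ) ^ r ≤ N * (H + 1) ^ m := by
    refine hr.trans ?_
    gcongr
    linarith
  have h2 := h1 N T D hS (H + 1) (by linarith) S F lam W hF' r hr' (tb b c (⌊t0⌋ : ℝ))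
    (tb_nb b c _ r hb hc) A hA
  have hcard : ∀ i, (((Wi t0 H).filter (fun k : ℤ => ∃ s : ℂ, 1 / 2 ≤ s.re ∧ s.re ≤ B ∧
      |s.im - k| ≤ B ∧ A < ‖Gd (lamG i) b r s‖)).card : ℝ) ≤
      (((Finset.Icc (-⌊H + 1⌋) ⌊H + 1⌋).filter (fun k : ℤ => ∃ s : ℂ, 1 / 2 ≤ s.re ∧ s.re ≤ B ∧
        |s.im - k| ≤ B ∧ A < ‖Gd (lam i) (tb b c (⌊t0⌋ : ℝ)) r s‖)).card : ℝ) := by
    intro i
    have h3 : ((Wi t0 H).filter (fun k : ℤ => ∃ s : ℂ, 1 / 2 ≤ s.re ∧ s.re ≤ B ∧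
      |s.im - k| ≤ B ∧ A < ‖Gd (lamG i) b r s‖)).card ≤
      ((Finset.Icc (-⌊H + 1⌋) ⌊H + 1⌋).filter (fun k : ℤ => ∃ s : ℂ, 1 / 2 ≤ s.re ∧ s.re ≤ B ∧
        |s.im - k| ≤ B ∧ A < ‖Gd (lam i) (tb b c (⌊t0⌋ : ℝ)) r s‖)).card := by
      refine Finset.card_le_card_of_injOn (fun k => k - ⌊t0⌋) ?_ (fun a _ b _ hab => by
        simpa using hab)
      intro k hk
      rw [Finset.mem_coe, Finset.mem_filter, Wi, Finset.mem_Icc, Int.ceil_le, Int.le_floor] at hk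
      obtain ⟨⟨hk1, hk2⟩, s, hs1, hs2, hs3, hs4⟩ := hk
      have hf1 : (⌊t0⌋ : ℝ) ≤ t0 := Int.floor_le t0
      have hf2 : t0 < (⌊t0⌋ : ℝ) + 1 := Int.lt_floor_add_one t0
      rw [Finset.mem_coe, Finset.mem_filter, Finset.mem_Icc]
      refine ⟨⟨?_, ?_⟩, s - ((⌊t0⌋ : ℝ) : ℂ) * Complex.I, ?_, ?_, ?_, ?_⟩
      · rw [neg_le, Int.le_floor]
        push_cast
        linarith
      · rw [Int.le_floor]
        push_cast
        linarith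
      · simpa using hs1
      · simpa using hs2
      · have h4 : (s - ((⌊t0⌋ : ℝ) : ℂ) * Complex.I).im - ((k - ⌊t0⌋ : ℤ) : ℝ) = s.im - k := by
          simp
        rw [h4]
        exact hs3
      · rw [Gd_norm] at hs4 ⊢
        rw [DB_tb (lam i) (lamG i) b c (hl i) r (⌊t0⌋ : ℝ) s] at hs4
        have h5 : (s - ((⌊t0⌋ : ℝ) : ℂ) * Complex.I).re = s.re := by simp
        rw [h5]
        exact hs4
    exact_mod_cast h3
  refine (Finset.sum_le_sum (fun i _ => mul_le_mul_of_nonneg_left (hcard i) (hF.nn i))).trans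
    (h2.trans ?_)
  have h6 : ((N : ℝ) * (H + 1)) ^ ε ≤ 2 ^ ε * ((N : ℝ) * H) ^ ε := by
    rw [← Real.mul_rpow (by norm_num) (by positivity)]
    refine Real.rpow_le_rpow (by positivity) ?_ hε.le
    nlinarith
  have h7 : (H + 1) ^ (m ^ 2) ≤ 2 ^ (m ^ 2) * H ^ (m ^ 2) := by
    rw [← mul_pow]
    exact pow_le_pow_left₀ (by linarith) (by linarith) _
  rw [div_le_div_iff_of_pos_right (by positivity)]
  calc C * ((N : ℝ) * (H + 1)) ^ ε * ((N : ℝ) ^ m * (H + 1) ^ (m ^ 2))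
      ≤ C * (2 ^ ε * ((N : ℝ) * H) ^ ε) * ((N : ℝ) ^ m * (2 ^ (m ^ 2) * H ^ (m ^ 2))) := by
        gcongr
    _ = _ := by ring

/-- the size of the Dirichlet polynomials over the products of `l` primes of a block -/
noncomputable def sx (l j : ℕ) : ℝ := √(1 / (l.factorial : ℝ)) * (2 : ℝ) ^ ((j : ℝ) * l / 2)

/-- the bounds for the Dirichlet polynomials over the products of the primes of the blocks -/
def Dx (lam : ℕ → ℂ) (Q z0 z A : ℝ) (s : ℂ) : Prop :=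
  ∀ j r : ℕ, 1 ≤ j → (2 : ℝ) ^ j ≤ Q → (2 : ℝ) ^ r ≤ Q →
    ‖DB lam (bb (UP z0 z j) 1 (lf Q j 1)) r s‖ ≤
      A * sx (lf Q j 1) j * (2 : ℝ) ^ (-((r : ℝ) * s.re))

open Classical in
/-- the pairs of a form and a window with large Dirichlet polynomials, coefficients `c n * lam n` -/
def T_BDX : Prop := ∀ (m : ℕ) (B ε : ℝ), 1 ≤ m → 1 ≤ B → 0 < ε → ∃ C : ℝ, 0 < C ∧
  ∀ (N : ℕ) [NeZero N] (T : ℕ → Finset (ZM m)) (D : Set (V m)), SysZ m N T D →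
  ∀ H : ℝ, 1 ≤ H → ∀ (S : Type) [Fintype S] [DecidableEq S] (F : S → Mat m → VN m N → ℂ)
    (lam : S → ℕ → ℂ) (W : S → ℝ), Fam T D H F lam W →
  ∀ (c : ℕ → ℂ) (lamG : S → ℕ → ℂ), (∀ n, ‖c n‖ ≤ 1) → (∀ i n, 1 ≤ n → lamG i n = c n * lam i n) →
  ∀ t0 z0 z A : ℝ, 0 < A →
    ∑ i, W i * (((Wi t0 H).filter (fun k : ℤ => ∃ s : ℂ, 1 / 2 ≤ s.re ∧ s.re ≤ B ∧
      |s.im - k| ≤ B ∧ ¬ Dx (lamG i) (N * H ^ m) z0 z A s)).card : ℝ) ≤
      C * ((N : ℝ) * H) ^ ε * ((N : ℝ) ^ m * H ^ (m ^ 2)) / A ^ 2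

/-- the number of the products in the block -/
theorem bb_nb (U : Finset ℕ) (j l r : ℕ) (hc : (U.card : ℝ) ≤ 2 ^ j) :
    ∑ n ∈ Bk r, ‖bb U 1 l n‖ ^ 2 ≤ sx l j ^ 2 := by
  classical
  have h1 : ∑ n ∈ Bk r, ‖bb U 1 l n‖ ^ 2 ≤ ((Finset.powersetCard l U).card : ℝ) := by
    have h2 : ∑ n ∈ Bk r, ‖bb U 1 l n‖ ^ 2 ≤
        ∑ n ∈ (Finset.powersetCard l U).image (fun S => ∏ p ∈ S, p ^ 1), (1 : ℝ) := by
      have h3 : ∀ n ∈ Bk r, n ∉ (Finset.powersetCard l U).image (fun S => ∏ p ∈ S, p ^ 1) →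
          ‖bb U 1 l n‖ ^ 2 = 0 := by
        intro n _ hn
        unfold bb
        rw [if_neg]
        · simp
        · rintro ⟨S, hS, e⟩
          exact hn (Finset.mem_image.mpr ⟨S, hS, e.symm⟩)
      have h4 : ∑ n ∈ Bk r, ‖bb U 1 l n‖ ^ 2 = ∑ n ∈ (Bk r).filter (fun n => n ∈
          (Finset.powersetCard l U).image (fun S => ∏ p ∈ S, p ^ 1)), ‖bb U 1 l n‖ ^ 2 := by
        rw [Finset.sum_filter]
        refine Finset.sum_congr rfl (fun n hn => ?_)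
        split_ifs with h
        · rfl
        · exact h3 n hn h
      rw [h4]
      refine (Finset.sum_le_sum (g := fun _ => (1 : ℝ)) (fun n _ => ?_)).trans
        (Finset.sum_le_sum_of_subset_of_nonneg (fun n hn => (Finset.mem_filter.mp hn).2)
          (fun _ _ _ => zero_le_one))
      have h5 := bb_le U 1 l n
      exact pow_le_one₀ (norm_nonneg _) h5
    refine h2.trans ?_
    rw [Finset.sum_const, nsmul_eq_mul, mul_one]
    exact_mod_cast Finset.card_image_le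
  refine h1.trans ?_
  rw [Finset.card_powersetCard]
  have h6 : ((U.card.choose l : ℕ) : ℝ) ≤ (U.card : ℝ) ^ l / l.factorial := by
    exact Nat.choose_le_pow_div l U.card
  refine h6.trans ?_
  have h7 : (U.card : ℝ) ^ l ≤ (2 : ℝ) ^ ((j : ℝ) * l) := by
    rw [Real.rpow_mul (by norm_num), Real.rpow_natCast, Real.rpow_natCast]
    exact pow_le_pow_left₀ (Nat.cast_nonneg _) hc l
  have hf : (0 : ℝ) < l.factorial := by exact_mod_cast l.factorial_pos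
  have h8 : sx l j ^ 2 = (2 : ℝ) ^ ((j : ℝ) * l) / l.factorial := by
    unfold sx
    rw [mul_pow, Real.sq_sqrt (by positivity), ← Real.rpow_natCast ((2 : ℝ) ^ ((j : ℝ) * l / 2)) 2,
      ← Real.rpow_mul (by norm_num)]
    rw [one_div, inv_mul_eq_div]
    congr 2
    push_cast
    ring
  rw [h8]
  exact div_le_div_of_nonneg_right h7 hf.le

theorem up_card (z0 z : ℝ) (j : ℕ) : ((UP z0 z j).card : ℝ) ≤ 2 ^ j := by
  have h1 : UP z0 z j ⊆ Finset.Ioc 0 (2 ^ j) := by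
    intro p hp
    unfold UP at hp
    rw [Finset.mem_filter, Finset.mem_Ioc] at hp
    rw [Finset.mem_Ioc]
    exact ⟨hp.2.1.pos, hp.1.2⟩
  have h2 := Finset.card_le_card h1
  rw [Nat.card_Ioc, Nat.sub_zero] at h2
  exact_mod_cast h2

theorem sx_pos (l j : ℕ) : 0 < sx l j := by
  unfold sx
  have hf : (0 : ℝ) < l.factorial := by exact_mod_cast l.factorial_pos
  positivity

/-- the normalized coefficients -/
noncomputable def bx (z0 z : ℝ) (l j r : ℕ) (n : ℕ) : ℂ :=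
  (((2 : ℝ) ^ ((r : ℝ) / 2) / sx l j : ℝ) : ℂ) * bb (UP z0 z j) 1 l n

theorem bx_nb (z0 z : ℝ) (l j r : ℕ) : Nb (bx z0 z l j r) r := by
  unfold Nb bx
  have hs := sx_pos l j
  have h1 := bb_nb (UP z0 z j) j l r (up_card z0 z j)
  have h2 : ∀ n, ‖(((2 : ℝ) ^ ((r : ℝ) / 2) / sx l j : ℝ) : ℂ) * bb (UP z0 z j) 1 l n‖ ^ 2 =
      ((2 : ℝ) ^ r / sx l j ^ 2) * ‖bb (UP z0 z j) 1 l n‖ ^ 2 := by
    intro n
    rw [norm_mul, mul_pow, Complex.norm_real, Real.norm_eq_abs, sq_abs, div_pow,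
      ← Real.rpow_natCast ((2 : ℝ) ^ ((r : ℝ) / 2)) 2, ← Real.rpow_mul (by norm_num)]
    congr 2
    rw [← Real.rpow_natCast]
    congr 1
    push_cast
    ring
  simp_rw [h2]
  rw [← Finset.mul_sum]
  calc (2 : ℝ) ^ r / sx l j ^ 2 * ∑ n ∈ Bk r, ‖bb (UP z0 z j) 1 l n‖ ^ 2
      ≤ (2 : ℝ) ^ r / sx l j ^ 2 * sx l j ^ 2 := mul_le_mul_of_nonneg_left h1 (by positivity)
    _ = (2 : ℝ) ^ r := by
        field_simp

theorem DB_bx (lam : ℕ → ℂ) (z0 z : ℝ) (l j r : ℕ) (s : ℂ) :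
    DB lam (bx z0 z l j r) r s =
      (((2 : ℝ) ^ ((r : ℝ) / 2) / sx l j : ℝ) : ℂ) * DB lam (bb (UP z0 z j) 1 l) r s := by
  unfold DB bx
  rw [Finset.mul_sum]
  exact Finset.sum_congr rfl (fun n _ => by ring)

open Classical in
theorem pf_BDX (hLSB : T_LSB) (hSOB : T_SOB) : T_BDX := by
  intro m B ε hm hB hε
  obtain ⟨C, hC, h1⟩ := oneTX m hm B (ε / 2) hB (by linarith) hSOB hLSB
  obtain ⟨K, hK, h2⟩ := logcnt m (ε / 4) (by linarith)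
  refine ⟨K * K * C, by positivity, ?_⟩
  intro N _ T D hS P hP S _ _ F lam W hF c lamG hc hl t0 z0 z A hA
  have hW := hF.nn
  have hN : 1 ≤ N := Nat.one_le_iff_ne_zero.mpr (NeZero.ne N)
  have hN1 : (1 : ℝ) ≤ N := by exact_mod_cast hN
  have hNP : 1 ≤ (N : ℝ) * P := by nlinarith
  have hQ : 1 ≤ (N : ℝ) * P ^ m := by
    have : (1 : ℝ) ≤ P ^ m := one_le_pow₀ hP
    nlinarith
  set n : ℕ := ⌊Real.logb 2 (N * P ^ m)⌋₊ with hn
  have hpow : ∀ j : ℕ, (2 : ℝ) ^ j ≤ N * P ^ m ↔ j ≤ n := by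
    intro j
    rw [hn, Nat.le_floor_iff (Real.logb_nonneg (by norm_num) hQ), Real.le_logb_iff_rpow_le
      (by norm_num) (by linarith), Real.rpow_natCast]
  set M : ℝ := C * ((N : ℝ) * P) ^ (ε / 2) * ((N : ℝ) ^ m * P ^ (m ^ 2)) / A ^ 2 with hM
  have hM0 : 0 ≤ M := by positivity
  set Tr : Finset (ℕ × ℕ) := Finset.Icc 1 n ×ˢ Finset.range (n + 1) with hTr
  -- one pair
  have h3 : ∀ x ∈ Tr, ∑ i, W i * (((Wi t0 P).filter (fun k : ℤ => ∃ s : ℂ,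
      1 / 2 ≤ s.re ∧ s.re ≤ B ∧ |s.im - k| ≤ B ∧
      A < ‖Gd (lamG i) (bx z0 z (lf (N * P ^ m) x.1 1) x.1 x.2) x.2 s‖)).card : ℝ) ≤
      M := by
    intro x hx
    rw [hTr, Finset.mem_product, Finset.mem_range] at hx
    exact h1 N T D hS P hP S F lam W hF c lamG hc hl x.2 ((hpow _).mpr (by omega)) _
      (bx_nb _ _ _ _ _) t0 A hA
  -- the union
  have h4 : ∀ i, (((Wi t0 P).filter (fun k : ℤ => ∃ s : ℂ, 1 / 2 ≤ s.re ∧ s.re ≤ B ∧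
      |s.im - k| ≤ B ∧ ¬ Dx (lamG i) (N * P ^ m) z0 z A s)).card : ℝ) ≤
      ∑ x ∈ Tr, (((Wi t0 P).filter (fun k : ℤ => ∃ s : ℂ,
        1 / 2 ≤ s.re ∧ s.re ≤ B ∧ |s.im - k| ≤ B ∧
        A < ‖Gd (lamG i) (bx z0 z (lf (N * P ^ m) x.1 1) x.1 x.2) x.2 s‖)).card : ℝ) := by
    intro i
    have h5 : (Wi t0 P).filter (fun k : ℤ => ∃ s : ℂ, 1 / 2 ≤ s.re ∧ s.re ≤ B ∧
        |s.im - k| ≤ B ∧ ¬ Dx (lamG i) (N * P ^ m) z0 z A s) ⊆
        Tr.biUnion (fun x => (Wi t0 P).filter (fun k : ℤ => ∃ s : ℂ,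
          1 / 2 ≤ s.re ∧ s.re ≤ B ∧ |s.im - k| ≤ B ∧
          A < ‖Gd (lamG i) (bx z0 z (lf (N * P ^ m) x.1 1) x.1 x.2) x.2 s‖)) := by
      intro k hk
      rw [Finset.mem_filter] at hk
      obtain ⟨hk1, s, hs1, hs2, hs3, hs4⟩ := hk
      unfold Dx at hs4
      push Not at hs4
      obtain ⟨j, r, hj, hjQ, hrQ, hlt⟩ := hs4
      rw [Finset.mem_biUnion]
      refine ⟨(j, r), ?_, ?_⟩
      · rw [hTr, Finset.mem_product, Finset.mem_range, Finset.mem_Icc]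
        exact ⟨⟨hj, (hpow j).mp hjQ⟩, Nat.lt_succ_of_le ((hpow r).mp hrQ)⟩
      · rw [Finset.mem_filter]
        refine ⟨hk1, s, hs1, hs2, hs3, ?_⟩
        have hsx := sx_pos (lf (N * P ^ m) j 1) j
        show A < ‖Gd (lamG i) (bx z0 z (lf (N * P ^ m) j 1) j r) r s‖
        rw [Gd_norm, DB_bx, norm_mul, Complex.norm_real, Real.norm_eq_abs,
          abs_of_pos (by positivity)]
        have e6 : (2 : ℝ) ^ ((r : ℝ) * (s.re - 1 / 2)) * ((2 : ℝ) ^ ((r : ℝ) / 2) *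
            (2 : ℝ) ^ (-((r : ℝ) * s.re))) = 1 := by
          rw [← Real.rpow_add (by norm_num), ← Real.rpow_add (by norm_num)]
          have : (r : ℝ) * (s.re - 1 / 2) + ((r : ℝ) / 2 + -((r : ℝ) * s.re)) = 0 := by ring
          rw [this, Real.rpow_zero]
        have e7 : (0 : ℝ) < (2 : ℝ) ^ ((r : ℝ) * (s.re - 1 / 2)) := by positivity
        have e8 : (0 : ℝ) < (2 : ℝ) ^ ((r : ℝ) / 2) / sx (lf (N * P ^ m) j 1) j := by positivity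
        calc A = A * ((2 : ℝ) ^ ((r : ℝ) * (s.re - 1 / 2)) * ((2 : ℝ) ^ ((r : ℝ) / 2) *
            (2 : ℝ) ^ (-((r : ℝ) * s.re)))) := by rw [e6, mul_one]
          _ = (2 : ℝ) ^ ((r : ℝ) * (s.re - 1 / 2)) *
              ((2 : ℝ) ^ ((r : ℝ) / 2) / sx (lf (N * P ^ m) j 1) j *
              (A * sx (lf (N * P ^ m) j 1) j * (2 : ℝ) ^ (-((r : ℝ) * s.re)))) := by
              field_simp
          _ < _ := mul_lt_mul_of_pos_left (mul_lt_mul_of_pos_left hlt e8) e7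
    calc (((Wi t0 P).filter (fun k : ℤ => ∃ s : ℂ, 1 / 2 ≤ s.re ∧ s.re ≤ B ∧
      |s.im - k| ≤ B ∧ ¬ Dx (lamG i) (N * P ^ m) z0 z A s)).card : ℝ)
        ≤ ((∑ x ∈ Tr, ((Wi t0 P).filter (fun k : ℤ => ∃ s : ℂ,
        1 / 2 ≤ s.re ∧ s.re ≤ B ∧ |s.im - k| ≤ B ∧
        A < ‖Gd (lamG i) (bx z0 z (lf (N * P ^ m) x.1 1) x.1 x.2) x.2 s‖)).card : ℕ) : ℝ) := by
          exact_mod_cast (Finset.card_le_card h5).trans Finset.card_biUnion_le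
      _ = _ := by push_cast; rfl
  have h8 := h2 N P hN hP
  have hcard : (Tr.card : ℝ) ≤ K * K * ((N : ℝ) * P) ^ (ε / 2) := by
    have e8 : (Tr.card : ℝ) = (n : ℝ) * ((n : ℝ) + 1) := by
      rw [hTr, Finset.card_product, Finset.card_range, Nat.card_Icc]
      push_cast
      simp
    have e9 : ((N : ℝ) * P) ^ (ε / 4) * ((N : ℝ) * P) ^ (ε / 4) = ((N : ℝ) * P) ^ (ε / 2) := by
      rw [← Real.rpow_add (by linarith)]
      congr 1
      ring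
    have hn0 : (0 : ℝ) ≤ n := Nat.cast_nonneg n
    rw [e8]
    calc (n : ℝ) * ((n : ℝ) + 1)
        ≤ ((n : ℝ) + 1) * ((n : ℝ) + 1) := by
          gcongr
          linarith
      _ ≤ (K * ((N : ℝ) * P) ^ (ε / 4)) * (K * ((N : ℝ) * P) ^ (ε / 4)) := by
          gcongr
      _ = K * K * (((N : ℝ) * P) ^ (ε / 4) * ((N : ℝ) * P) ^ (ε / 4)) := by ring
      _ = _ := by rw [e9]
  calc ∑ i, W i * (((Wi t0 P).filter (fun k : ℤ => ∃ s : ℂ, 1 / 2 ≤ s.re ∧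
        s.re ≤ B ∧ |s.im - k| ≤ B ∧ ¬ Dx (lamG i) (N * P ^ m) z0 z A s)).card : ℝ)
      ≤ ∑ i, W i * ∑ x ∈ Tr, (((Wi t0 P).filter (fun k : ℤ => ∃ s : ℂ,
        1 / 2 ≤ s.re ∧ s.re ≤ B ∧ |s.im - k| ≤ B ∧
        A < ‖Gd (lamG i) (bx z0 z (lf (N * P ^ m) x.1 1) x.1 x.2) x.2 s‖)).card : ℝ) :=
        Finset.sum_le_sum (fun i _ => mul_le_mul_of_nonneg_left (h4 i) (hW i))
    _ = ∑ x ∈ Tr, ∑ i, W i * (((Wi t0 P).filter (fun k : ℤ => ∃ s : ℂ,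
        1 / 2 ≤ s.re ∧ s.re ≤ B ∧ |s.im - k| ≤ B ∧
        A < ‖Gd (lamG i) (bx z0 z (lf (N * P ^ m) x.1 1) x.1 x.2) x.2 s‖)).card : ℝ) := by
        simp_rw [Finset.mul_sum]
        exact Finset.sum_comm
    _ ≤ ∑ x ∈ Tr, M := Finset.sum_le_sum h3
    _ = Tr.card * M := by rw [Finset.sum_const, nsmul_eq_mul]
    _ ≤ (K * K * ((N : ℝ) * P) ^ (ε / 2)) * M := mul_le_mul_of_nonneg_right hcard hM0
    _ = K * K * C * (((N : ℝ) * P) ^ (ε / 2) * ((N : ℝ) * P) ^ (ε / 2)) *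
          ((N : ℝ) ^ m * P ^ (m ^ 2)) / A ^ 2 := by
        rw [hM]
        ring
    _ = _ := by
        rw [← Real.rpow_add (by linarith), add_halves]

theorem sum_blocks (f : ℕ → ℂ) (R : ℕ) :
    ∑ n ∈ Finset.Icc 1 (2 ^ R), f n = ∑ r ∈ Finset.range (R + 1), ∑ n ∈ Bk r, f n := by
  have h0 : ∀ y : ℕ, Finset.Icc 1 y = Finset.Ioc 0 y := by
    intro y
    ext n
    rw [Finset.mem_Icc, Finset.mem_Ioc]
    omega
  rw [h0]
  induction R with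
  | zero => simp [Bk]
  | succ R ih =>
    rw [Finset.sum_range_succ, ← ih, ← Finset.sum_Ioc_consecutive f (Nat.zero_le (2 ^ R))
      (Nat.pow_le_pow_right (by norm_num) (Nat.le_succ R))]
    congr 1
    unfold Bk
    have : 2 ^ (R + 1) / 2 = 2 ^ R := by
      rw [pow_succ]
      exact Nat.mul_div_cancel _ (by norm_num)
    rw [this]

theorem lf_le {Q : ℝ} (hQ : 1 ≤ Q) {j : ℕ} (hj : 1 ≤ j) : (2 : ℝ) ^ (j * lf Q j 1) ≤ Q := by
  have hj0 : (0 : ℝ) < j := by exact_mod_cast hj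
  have hl2 : 0 < Real.log 2 := Real.log_pos (by norm_num)
  have h1 : ((lf Q j 1 : ℕ) : ℝ) ≤ Real.log Q / (j * (1 : ℕ) * Real.log 2) := by
    unfold lf
    exact Nat.floor_le (by
      have := Real.log_nonneg hQ
      positivity)
  rw [Nat.cast_one, mul_one, le_div_iff₀ (by positivity)] at h1
  rw [← Real.log_le_log_iff (by positivity) (by linarith), Real.log_pow]
  push_cast
  linarith

/-- the polynomial of the products is the sum of its blocks -/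
theorem DU_blocks (lam : ℕ → ℂ) (U : Finset ℕ) (R l : ℕ) (s : ℂ) :
    Pool.Agent.H20.LX.DU lam U (2 ^ R) l s =
      ∑ r ∈ Finset.range (R + 1), DB lam (bb U 1 l) r s := by
  unfold Pool.Agent.H20.LX.DU DB
  rw [sum_blocks]

/-- the blocks below the products are empty -/
theorem DB_low (lam : ℕ → ℂ) (z0 z : ℝ) (j l r : ℕ) (s : ℂ) (hr : r < (j - 1) * l) :
    DB lam (bb (UP z0 z j) 1 l) r s = 0 := by
  classical
  unfold DB
  refine Finset.sum_eq_zero (fun n hn => ?_)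
  have h1 := Finset.mem_Ioc.mp hn
  have h2 : bb (UP z0 z j) 1 l n = 0 := by
    unfold bb
    rw [if_neg]
    rintro ⟨S, hS, e⟩
    rw [Finset.mem_powersetCard] at hS
    have h3 : (2 ^ (j - 1)) ^ l ≤ ∏ p ∈ S, p ^ 1 := by
      rw [← hS.2, ← Finset.prod_const]
      refine Finset.prod_le_prod' (fun p hp => ?_)
      have h4 := hS.1 hp
      unfold UP at h4
      rw [Finset.mem_filter, Finset.mem_Ioc] at h4
      rw [pow_one]
      exact h4.1.1.le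
    rw [← e, ← pow_mul] at h3
    have h5 : 2 ^ r < 2 ^ ((j - 1) * l) := Nat.pow_lt_pow_right (by norm_num) hr
    omega
  rw [h2]
  ring

/-- from the blocks to the whole polynomial -/
theorem dx_of (lam : ℕ → ℂ) (Q z0 z A : ℝ) (hQ : 1 ≤ Q) (hA : 0 < A) (n : ℕ)
    (hn : ∀ r : ℕ, (2 : ℝ) ^ r ≤ Q → r ≤ n) (s : ℂ) (hs : 0 ≤ s.re)
    (h : Dx lam Q z0 z (A / (n + 1)) s) : Pool.Agent.H20.LX.Dx lam Q z0 z A s := by
  intro j hj hjQ
  obtain ⟨l, hl⟩ : ∃ l : ℕ, l = lf Q j 1 := ⟨_, rfl⟩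
  have hlQ := lf_le hQ hj
  rw [← hl] at hlQ
  have hsx := sx_pos l j
  have e1 : Pool.Agent.H20.LX.bx Q j s.re = sx l j * (2 : ℝ) ^ (-(((j : ℝ) - 1) * l * s.re)) := by
    unfold Pool.Agent.H20.LX.bx sx
    have e0 : (2 : ℝ) ^ ((j : ℝ) * l / 2 - ((j : ℝ) - 1) * l * s.re) =
        (2 : ℝ) ^ ((j : ℝ) * l / 2) * (2 : ℝ) ^ (-(((j : ℝ) - 1) * l * s.re)) := by
      rw [← Real.rpow_add (by norm_num)]
      rfl
    rw [← hl, e0, ← mul_assoc]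
  rw [← hl, DU_blocks, e1]
  have hn1 : (0 : ℝ) < (n : ℝ) + 1 := by positivity
  have hterm : ∀ r ∈ Finset.range (j * l + 1), ‖DB lam (bb (UP z0 z j) 1 l) r s‖ ≤
      A / (n + 1) * (sx l j * (2 : ℝ) ^ (-(((j : ℝ) - 1) * l * s.re))) := by
    intro r hr
    rw [Finset.mem_range, Nat.lt_succ_iff] at hr
    rcases Nat.lt_or_ge r ((j - 1) * l) with h1 | h1
    · rw [DB_low lam z0 z j l r s h1, norm_zero]
      positivity
    · have hrQ : (2 : ℝ) ^ r ≤ Q := (pow_le_pow_right₀ (by norm_num) hr).trans hlQ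
      have h2 := h j r hj hjQ hrQ
      rw [← hl] at h2
      refine h2.trans ?_
      rw [mul_assoc]
      apply mul_le_mul_of_nonneg_left _ (by positivity)
      apply mul_le_mul_of_nonneg_left _ hsx.le
      apply Real.rpow_le_rpow_of_exponent_le (by norm_num)
      have h3 : (((j - 1) * l : ℕ) : ℝ) ≤ r := by exact_mod_cast h1
      rw [Nat.cast_mul, Nat.cast_sub hj, Nat.cast_one] at h3
      have h4 := mul_le_mul_of_nonneg_right h3 hs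
      linarith
  calc ‖∑ r ∈ Finset.range (j * l + 1), DB lam (bb (UP z0 z j) 1 l) r s‖
      ≤ ∑ r ∈ Finset.range (j * l + 1), ‖DB lam (bb (UP z0 z j) 1 l) r s‖ := norm_sum_le _ _
    _ ≤ ∑ _r ∈ Finset.range (j * l + 1),
        A / (n + 1) * (sx l j * (2 : ℝ) ^ (-(((j : ℝ) - 1) * l * s.re))) := Finset.sum_le_sum hterm
    _ = ((j * l : ℕ) + 1) * (A / (n + 1) * (sx l j *
        (2 : ℝ) ^ (-(((j : ℝ) - 1) * l * s.re)))) := by
        rw [Finset.sum_const, Finset.card_range, nsmul_eq_mul]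
        push_cast
        ring
    _ ≤ ((n : ℝ) + 1) * (A / (n + 1) * (sx l j *
        (2 : ℝ) ^ (-(((j : ℝ) - 1) * l * s.re)))) := by
        apply mul_le_mul_of_nonneg_right _ (by positivity)
        have := hn (j * l) hlQ
        have h5 : ((j * l : ℕ) : ℝ) ≤ n := by exact_mod_cast this
        linarith
    _ = A * (sx l j * (2 : ℝ) ^ (-(((j : ℝ) - 1) * l * s.re))) := by
        field_simp

open Classical in
/-- row BDX of page lx -/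
theorem pf_BDX20 (hLXF : T_LXF) (hSOB : T_SOB) : Pool.Agent.H20.LX.T_BDX := by
  intro m B ε hm hB hε
  obtain ⟨C, hC, h1⟩ := pf_BDX (pf_LSB hLXF) hSOB m B (ε / 2) hm hB (by linarith)
  obtain ⟨K, hK, h2⟩ := logcnt m (ε / 4) (by linarith)
  refine ⟨C * (K * K), by positivity, ?_⟩
  intro N _ T D hS P hP S _ _ F lam W hF c lamG hc hl t0 z0 z A hA
  have hN : 1 ≤ N := Nat.one_le_iff_ne_zero.mpr (NeZero.ne N)
  have hN1 : (1 : ℝ) ≤ N := by exact_mod_cast hN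
  have hNP : 1 ≤ (N : ℝ) * P := by nlinarith
  have hQ : 1 ≤ (N : ℝ) * P ^ m := by
    have : (1 : ℝ) ≤ P ^ m := one_le_pow₀ hP
    nlinarith
  obtain ⟨n, hn⟩ : ∃ n : ℕ, n = ⌊Real.logb 2 (N * P ^ m)⌋₊ := ⟨_, rfl⟩
  have hpow : ∀ j : ℕ, (2 : ℝ) ^ j ≤ N * P ^ m → j ≤ n := by
    intro j hj
    rw [hn, Nat.le_floor_iff (Real.logb_nonneg (by norm_num) hQ), Real.le_logb_iff_rpow_le
      (by norm_num) (by linarith), Real.rpow_natCast]
    exact hj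
  have hA0 : 0 < A := by linarith
  have h3 := h1 N T D hS P hP S F lam W hF c lamG hc hl t0 z0 z (A / (n + 1)) (by positivity)
  have h4 : ∀ i, (((Wi t0 P).filter (fun k : ℤ => ∃ s : ℂ, 1 / 2 ≤ s.re ∧ s.re ≤ B ∧
      |s.im - k| ≤ B ∧ ¬ Pool.Agent.H20.LX.Dx (lamG i) (N * P ^ m) z0 z A s)).card : ℝ) ≤
      (((Wi t0 P).filter (fun k : ℤ => ∃ s : ℂ, 1 / 2 ≤ s.re ∧ s.re ≤ B ∧
      |s.im - k| ≤ B ∧ ¬ Dx (lamG i) (N * P ^ m) z0 z (A / (n + 1)) s)).card : ℝ) := by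
    intro i
    have h5 : (Wi t0 P).filter (fun k : ℤ => ∃ s : ℂ, 1 / 2 ≤ s.re ∧ s.re ≤ B ∧
      |s.im - k| ≤ B ∧ ¬ Pool.Agent.H20.LX.Dx (lamG i) (N * P ^ m) z0 z A s) ⊆
        (Wi t0 P).filter (fun k : ℤ => ∃ s : ℂ, 1 / 2 ≤ s.re ∧ s.re ≤ B ∧
      |s.im - k| ≤ B ∧ ¬ Dx (lamG i) (N * P ^ m) z0 z (A / (n + 1)) s) := by
      intro k hk
      rw [Finset.mem_filter] at hk ⊢
      obtain ⟨hk1, s, hs1, hs2, hs3, hs4⟩ := hk
      exact ⟨hk1, s, hs1, hs2, hs3, fun h6 => hs4 (dx_of (lamG i) _ z0 z A hQ hA0 n hpow s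
        (by linarith) h6)⟩
    exact_mod_cast Finset.card_le_card h5
  refine (Finset.sum_le_sum (fun i _ => mul_le_mul_of_nonneg_left (h4 i) (hF.nn i))).trans
    (h3.trans ?_)
  have h8 := h2 N P hN hP
  rw [← hn] at h8
  have e9 : ((N : ℝ) * P) ^ (ε / 4) * ((N : ℝ) * P) ^ (ε / 4) = ((N : ℝ) * P) ^ (ε / 2) := by
    rw [← Real.rpow_add (by linarith)]
    congr 1
    ring
  have hn1 : (0 : ℝ) < (n : ℝ) + 1 := by positivity
  have h9 : ((n : ℝ) + 1) ^ 2 ≤ K * K * ((N : ℝ) * P) ^ (ε / 2) := by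
    calc ((n : ℝ) + 1) ^ 2 ≤ (K * ((N : ℝ) * P) ^ (ε / 4)) ^ 2 :=
          pow_le_pow_left₀ hn1.le h8 2
      _ = K * K * (((N : ℝ) * P) ^ (ε / 4) * ((N : ℝ) * P) ^ (ε / 4)) := by ring
      _ = _ := by rw [e9]
  have e10 : ((N : ℝ) * P) ^ (ε / 2) * ((N : ℝ) * P) ^ (ε / 2) = ((N : ℝ) * P) ^ ε := by
    rw [← Real.rpow_add (by linarith), add_halves]
  calc C * ((N : ℝ) * P) ^ (ε / 2) * ((N : ℝ) ^ m * P ^ (m ^ 2)) / (A / (n + 1)) ^ 2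
      = C * ((N : ℝ) * P) ^ (ε / 2) * ((N : ℝ) ^ m * P ^ (m ^ 2)) / A ^ 2 *
          ((n : ℝ) + 1) ^ 2 := by
        field_simp
    _ ≤ C * ((N : ℝ) * P) ^ (ε / 2) * ((N : ℝ) ^ m * P ^ (m ^ 2)) / A ^ 2 *
          (K * K * ((N : ℝ) * P) ^ (ε / 2)) := mul_le_mul_of_nonneg_left h9 (by positivity)
    _ = C * (K * K) * (((N : ℝ) * P) ^ (ε / 2) * ((N : ℝ) * P) ^ (ε / 2)) *
          ((N : ℝ) ^ m * P ^ (m ^ 2)) / A ^ 2 := by ring
    _ = _ := by rw [e10]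

end Pool.Agent.H47.LX
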