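import Pool.Agent.H20.LX.T
import Pool.Agent.H12.ZR.T

/-!
Page lx (MP_52e316_nt): Ramanujan's conjecture on average at one integer, from the large sieve.
-/

set_option autoImplicit false

namespace Pool.Agent.H47.LX

open MeasureTheory Pool.Agent.H27.ZF
open Pool.Agent.H27.L1.H34.GM Pool.Agent.H27.L1.H34.GZ Pool.Agent.H27.L1.H34.GU
  Pool.Agent.H27.L1.H34.GA
open Pool.Agent.H20.LX (T_LXF)

theorem pf_SNG (h : T_LXF) : Pool.Agent.H12.ZR.T_SNG := by
  intro m ε hm hε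
  obtain ⟨C, hC, h1⟩ := h m (ε / (m + 1)) hm (by positivity)
  refine ⟨C * 2 ^ m, by positivity, ?_⟩
  intro N _ T D hS P hP S _ _ F lam W hF n hn hnQ
  have hN : 1 ≤ N := Nat.one_le_iff_ne_zero.mpr (NeZero.ne N)
  have hN1 : (1 : ℝ) ≤ N := by exact_mod_cast hN
  have hn0 : (0 : ℝ) < n := by exact_mod_cast hn
  have hW := hF.nn
  have h2 := h1 N T D hS P hP S F lam W hF n (fun k => if k = n then 1 else 0) 0 hn
  have hmem : n ∈ Finset.Icc 1 n := Finset.mem_Icc.mpr ⟨hn, le_rfl⟩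
  have e1 : ∀ i (t : ℝ), ENNReal.ofReal (‖∑ k ∈ Finset.Icc 1 n, (if k = n then (1 : ℂ) else 0) *
      lam i k * (k : ℂ) ^ (-(((t + 0 : ℝ) : ℂ) * Complex.I))‖ ^ 2) =
      ENNReal.ofReal (‖lam i n‖ ^ 2) := by
    intro i t
    rw [Finset.sum_eq_single n (fun k _ hk => by rw [if_neg hk]; ring)
      (fun hk => absurd hmem hk), if_pos rfl, one_mul, norm_mul,
      Complex.norm_natCast_cpow_of_pos (by omega)]
    have h3 : (-(((t + 0 : ℝ) : ℂ) * Complex.I)).re = 0 := by simp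
    rw [h3, Real.rpow_zero, mul_one]
  simp_rw [e1] at h2
  have e2 : ∑ i, ENNReal.ofReal (W i) * ∫⁻ _t in Set.Icc (-P) P, ENNReal.ofReal (‖lam i n‖ ^ 2) =
      ENNReal.ofReal ((∑ i, W i * ‖lam i n‖ ^ 2) * (2 * P)) := by
    rw [Finset.sum_mul, ENNReal.ofReal_sum_of_nonneg (fun i _ => by
      have := hW i
      positivity)]
    refine Finset.sum_congr rfl (fun i _ => ?_)
    rw [setLIntegral_const, Real.volume_Icc, ← ENNReal.ofReal_mul (by positivity),
      ← ENNReal.ofReal_mul (hW i)]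
    congr 1
    ring
  have e3 : ∑ k ∈ Finset.Icc 1 n, ‖(if k = n then (1 : ℂ) else 0)‖ ^ 2 = 1 := by
    rw [Finset.sum_eq_single n (fun k _ hk => by rw [if_neg hk]; simp)
      (fun hk => absurd hmem hk), if_pos rfl]
    simp
  rw [e2, e3, mul_one] at h2
  have hPm : (1 : ℝ) ≤ P ^ m := one_le_pow₀ hP
  have hQ0 : (0 : ℝ) < N * P ^ m := by positivity
  have hNP1 : (1 : ℝ) ≤ (N : ℝ) * P := by nlinarith
  have h3 := (ENNReal.ofReal_le_ofReal_iff (by positivity)).mp h2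
  have e4 : (1 + (n : ℝ) / (N * P ^ m)) ^ m ≤ 2 ^ m := by
    apply pow_le_pow_left₀ (by positivity)
    have : (n : ℝ) / (N * P ^ m) ≤ 1 := by
      rw [div_le_one hQ0]
      exact hnQ
    linarith
  have e5 : ((N : ℝ) * P * n) ^ (ε / (m + 1)) ≤ ((N : ℝ) * P) ^ ε := by
    have h3 : (N : ℝ) * P * n ≤ ((N : ℝ) * P) ^ ((m : ℝ) + 1) := by
      have h4 : (n : ℝ) ≤ ((N : ℝ) * P) ^ (m : ℝ) := by
        refine hnQ.trans ?_
        rw [Real.rpow_natCast, mul_pow]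
        apply mul_le_mul_of_nonneg_right _ (by positivity)
        exact le_self_pow₀ hN1 (by omega)
      rw [Real.rpow_add (by linarith), Real.rpow_one, mul_comm (((N : ℝ) * P) ^ (m : ℝ))]
      exact mul_le_mul_of_nonneg_left h4 (by linarith)
    calc ((N : ℝ) * P * n) ^ (ε / (m + 1))
        ≤ (((N : ℝ) * P) ^ ((m : ℝ) + 1)) ^ (ε / (m + 1)) :=
          Real.rpow_le_rpow (by positivity) h3 (by positivity)
      _ = ((N : ℝ) * P) ^ ε := by
          rw [← Real.rpow_mul (by linarith)]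
          congr 1
          field_simp
  have h0 : 0 ≤ ∑ i, W i * ‖lam i n‖ ^ 2 := Finset.sum_nonneg fun i _ => by
    have := hW i
    positivity
  calc (∑ i, W i * ‖lam i n‖ ^ 2) * P ≤ (∑ i, W i * ‖lam i n‖ ^ 2) * (2 * P) := by
        apply mul_le_mul_of_nonneg_left _ h0
        linarith
    _ ≤ C * ((N : ℝ) * P * n) ^ (ε / (m + 1)) * ((N : ℝ) ^ m * P ^ (m ^ 2)) *
        (1 + (n : ℝ) / (N * P ^ m)) ^ m := h3
    _ ≤ C * ((N : ℝ) * P) ^ ε * ((N : ℝ) ^ m * P ^ (m ^ 2)) * 2 ^ m := by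
        gcongr
    _ = _ := by ring

end Pool.Agent.H47.LX
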