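import Pool.Agent.H23.LX.AllX
import Pool.Agent.H47.LX.SNG
import Pool.Agent.H47.LX.BDX
import Pool.Agent.H52.LX.EDU
import Pool.Agent.H17.LX.MIX
import Pool.Agent.H55.LX.PRX
import Pool.Agent.H95.LX.NZX
import Pool.Agent.H87.LX.ZXT
import Pool.Agent.H78.ZR.BRB
import Pool.Agent.H37.ZS.LOS
import Pool.Agent.H96.ZS.LFA
import Pool.Agent.H52.ZS.LQT
import Pool.Agent.H55.ZF.All
import Pool.Agent.H87.ZF.Z1TC

/-!
Page lx (MP_52e316_nt): the logarithm of almost all twisted L-functions, without hypotheses.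
-/

set_option autoImplicit false

namespace Pool.Agent.H47.LX

open Pool.Agent.H20.LX

theorem c_BRB : Pool.Agent.H12.ZR.T_BRB :=
  Pool.Agent.H78.ZR.pf_BRB (pf_SNG Pool.Agent.H23.LX.c_LXF) Pool.Agent.H55.ZF.pf_EUL
    Pool.Agent.H37.ZS.pf_LOS

theorem c_PRX : T_PRX :=
  Pool.Agent.H55.LX.pf_PRX Pool.Agent.H52.LX.pf_EDU (Pool.Agent.H17.LX.pf_MIX
    Pool.Agent.H96.ZF.pf_NEW) Pool.Agent.H96.ZS.pf_LFA Pool.Agent.H52.ZS.pf_LQS

theorem c_NZX : T_NZX :=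
  Pool.Agent.H95.LX.pf_NZX c_PRX Pool.Agent.H40.ZF.pf_HTC Pool.Agent.H69.ZF.pf_EPR
    Pool.Agent.H5.ZF.pf_TAI

theorem c_BDX : Pool.Agent.H20.LX.T_BDX :=
  pf_BDX20 Pool.Agent.H23.LX.c_LXF Pool.Agent.H1.ZF.pf_SOB

/-- few pairs of a form and an integer where the logarithm of the twisted L-function is large -/
theorem c_ZXT : T_ZXT :=
  Pool.Agent.H87.LX.pf_ZXT Pool.Agent.H55.ZF.pf_EUL Pool.Agent.H55.ZF.c_LSF c_BDX
    Pool.Agent.H87.TZF.c_BLT c_BRB c_NZX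

end Pool.Agent.H47.LX
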